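import Pool.Agent.H.MP_d27c5e_an.A

namespace Pool.Agent.Results.MP_d27c5e_an.No

open MeasureTheory Finset Pool.Agent.Lib.helper10.Walsh

/-- the means U of order a -/
noncomputable def U (a : ℝ) (n : ℕ) (f : ℕ → G → ℝ) (x : G) : ℝ :=
  (∑ k ∈ Icc 1 n, (k : ℝ) ^ (a - 1))⁻¹ * ∑ k ∈ Icc 1 n, (n + 1 - k : ℝ) ^ (a - 1) * S f k x

theorem result (a : ℝ) (a0 : 0 < a) (a1 : a < 1) (K : NNReal) : ∃ (f : ℕ → G → ℝ) (n : ℕ),
    Martingale f F mu ∧ nH (1 / (1 + a)) f < ⊤ ∧
      K * nH (1 / (1 + a)) f < nL (1 / (1 + a)) (U a (2 ^ n) f) := by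
  have h0 : a - 1 ≤ 0 := by linarith
  obtain ⟨f, n, h1, h2, h3⟩ := H.MP_d27c5e_an.main (q := fun n => (n + 1 : ℝ) ^ (a - 1))
    (Z := fun n => ∑ k ∈ Icc 1 n, (k : ℝ) ^ (a - 1)) (θ := (3 / 2) ^ (a - 1)) (c := 2 ^ (a - 1))
    (C := 1 / a) a0 a1 (fun n => by positivity)
    (fun m n h => Real.rpow_le_rpow_of_nonpos (by positivity) (by gcongr) h0)
    (fun n l h => by
      have : (l + 1 : ℝ) ≤ n := by exact_mod_cast h
      rw [← Real.mul_rpow (by positivity) (by positivity)]
      exact Real.rpow_le_rpow_of_nonpos (by positivity) (by push_cast; linarith) h0)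
    (Real.rpow_lt_one_of_one_lt_of_neg (by norm_num) (by linarith)) (by positivity)
    (fun n h => by
      have : (1 : ℝ) ≤ n := by exact_mod_cast h
      rw [← Real.mul_rpow (by positivity) (by positivity)]
      exact Real.rpow_le_rpow_of_nonpos (by positivity) (by linarith) h0)
    (fun n h => sum_pos (fun k hk => Real.rpow_pos_of_pos (by exact_mod_cast (mem_Icc.1 hk).1) _)
      ⟨1, by simpa using h⟩)
    (fun n h => by
      clear h
      induction n with
      | zero => simp [a0.ne']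
      | succ n ih =>
        have n0 : (0 : ℝ) < n + 1 := by positivity
        have h := rpow_one_add_le_one_add_mul_self (s := -(1 / (n + 1 : ℝ)))
          (neg_le_neg ((div_le_one n0).2 (by simp))) a0.le a1.le
        rw [show 1 + -(1 / (n + 1 : ℝ)) = n / (n + 1) by field_simp; ring,
          Real.div_rpow n.cast_nonneg n0.le, div_le_iff₀ (by positivity)] at h
        rw [sum_Icc_succ_top (by omega), Nat.cast_succ, Real.rpow_sub_one n0.ne']
        grw [ih, h]
        exact le_of_eq (by field_simp; ring)) K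
  refine ⟨f, n, h1, h2, h3.trans_eq (congrArg _ (funext fun x => congrArg _
    (sum_congr rfl fun k hk => ?_)))⟩
  rw [Nat.cast_sub (mem_Icc.1 hk).2, sub_add_eq_add_sub]

end Pool.Agent.Results.MP_d27c5e_an.No
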